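import Pool.Agent.H332.HT.Defs

/-!
# Basic facts on the shadow and interior fibres (project HT of helper332), by helper824
-/

set_option autoImplicit false

namespace Pool.Agent.H824.HT

open Pool.Agent.H332.HT

theorem image_int (K : Set V3) : ∀ x ∈ interior K, x.1 ∈ IP K := by
  intro x hx
  have h := (isOpenMap_fst (X := V2) (Y := ℝ)).image_interior_subset K
  exact h ⟨x, hx, rfl⟩

theorem cvxP {K : Set V3} (hK : HB K) : Convex ℝ (P K) :=
  hK.cvx.linear_image (LinearMap.fst ℝ V2 ℝ)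

theorem symmP {K : Set V3} (hK : HB K) : ∀ p ∈ P K, -p ∈ P K := by
  rintro p ⟨⟨p', z⟩, hx, rfl⟩
  exact ⟨(-p', z), hK.symm p' z hx, rfl⟩

theorem basP : S_P := by
  intro K hK
  refine ⟨hK.cpt.image continuous_fst, cvxP hK, symmP hK, image_int K 0 hK.int0, ?_,
    fun p hp => interior_subset hp, ?_⟩
  · intro p hp
    have h1 : IsOpen {p : V2 | -p ∈ IP K} := isOpen_interior.preimage continuous_neg
    have h2 : {p : V2 | -p ∈ IP K} ⊆ P K := by
      intro p hp
      have := symmP hK _ (interior_subset hp)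
      rwa [neg_neg] at this
    have h3 := interior_maximal h2 h1
    apply h3
    show - -p ∈ IP K
    rwa [neg_neg]
  · intro p hp r hr s hs hs1
    exact (cvxP hK).combo_interior_self_mem_interior hp hr hs (by linarith) (by ring)

theorem basFib : S_fib := by
  intro K hK
  refine ⟨?_, image_int K⟩
  intro p hp
  -- a slightly larger multiple
  have hcont : Continuous (fun s : ℝ => s • p) := continuous_id.smul continuous_const
  have hopen : IsOpen ((fun s : ℝ => s • p) ⁻¹' (IP K)) := isOpen_interior.preimage hcont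
  have hmem : (1 : ℝ) ∈ (fun s : ℝ => s • p) ⁻¹' (IP K) := by
    show (1 : ℝ) • p ∈ IP K
    rwa [one_smul]
  obtain ⟨e, he, hball⟩ := Metric.isOpen_iff.mp hopen 1 hmem
  have h1 : (1 + e / 2) • p ∈ IP K := by
    apply hball
    rw [Metric.mem_ball, Real.dist_eq]
    rw [show (1 + e / 2 - 1 : ℝ) = e / 2 by ring, abs_of_pos (by positivity)]
    linarith
  obtain ⟨⟨p', z'⟩, hx, hpp⟩ := interior_subset h1
  have hpp' : p' = (1 + e / 2) • p := hpp
  have hpos : (0 : ℝ) < 1 + e / 2 := by positivity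
  refine ⟨z' / (1 + e / 2), ?_⟩
  have h2 := hK.cvx.combo_interior_self_mem_interior hK.int0 hx
    (a := (e / 2) / (1 + e / 2)) (b := 1 / (1 + e / 2)) (by positivity) (by positivity)
    (by field_simp; ring)
  have h3 : ((e / 2) / (1 + e / 2)) • (0 : V3) + (1 / (1 + e / 2)) • ((p', z') : V3) =
      (p, z' / (1 + e / 2)) := by
    rw [smul_zero, zero_add, Prod.smul_mk, hpp', smul_smul]
    rw [show 1 / (1 + e / 2) * (1 + e / 2) = (1 : ℝ) by field_simp, one_smul, smul_eq_mul]
    congr 1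
    ring
  rwa [h3] at h2

theorem comb (a b : ℝ) (p : V2) (z w : ℝ) (h : a + b = 1) :
    a • ((p, z) : V3) + b • ((p, w) : V3) = (p, a * z + b * w) := by
  apply Prod.ext
  · show a • p + b • p = p
    rw [← add_smul, h, one_smul]
  · rfl

theorem basIntK : S_IntK := by
  intro K hK p z₁ z z₂ hp h1 h2 hz1 hz2
  obtain ⟨z₀, hz₀⟩ := (basFib K hK).1 p hp
  rcases le_or_gt z z₀ with hle | hlt
  · have hd : 0 < z₀ - z₁ := by linarith
    have e1 : (z - z₁) / (z₀ - z₁) + (z₀ - z) / (z₀ - z₁) = 1 := by field_simp; ring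
    have h3 := hK.cvx.combo_interior_self_mem_interior hz₀ h1
      (a := (z - z₁) / (z₀ - z₁)) (b := (z₀ - z) / (z₀ - z₁)) (div_pos (by linarith) hd)
      (div_nonneg (by linarith) hd.le) e1
    rw [comb _ _ _ _ _ e1] at h3
    have e2 : (z - z₁) / (z₀ - z₁) * z₀ + (z₀ - z) / (z₀ - z₁) * z₁ = z := by
      field_simp
      ring
    rwa [e2] at h3
  · have hd : 0 < z₂ - z₀ := by linarith
    have e1 : (z₂ - z) / (z₂ - z₀) + (z - z₀) / (z₂ - z₀) = 1 := by field_simp; ring
    have h3 := hK.cvx.combo_interior_self_mem_interior hz₀ h2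
      (a := (z₂ - z) / (z₂ - z₀)) (b := (z - z₀) / (z₂ - z₀)) (div_pos (by linarith) hd)
      (div_nonneg (by linarith) hd.le) e1
    rw [comb _ _ _ _ _ e1] at h3
    have e2 : (z₂ - z) / (z₂ - z₀) * z₀ + (z - z₀) / (z₂ - z₀) * z₂ = z := by
      field_simp
      ring
    rwa [e2] at h3

end Pool.Agent.H824.HT
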